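import Pool.Agent.Y429.HalvFew

/-!
# Halving lines of point sets covered, up to few points, by few sets in convex position

Definitions (in `Pool/Agent/W296/HL3.lean`, namespace `Pool.Agent.W296.HL`):

* `Line a b c = {p | a * p.1 + b * p.2 = c}`,
* `GeneralPosition P`: no three distinct points of `P` on a common line,
* `IsBisector P L`: `L` is a line through two distinct points of `P` with exactly
  `|P| / 2 - 1` points of `P` on each open side.

In `Pool/Agent/TH511/HLC/Part.lean` (namespace `Pool.Agent.TH511.HLC`):

* `ConvexPosition A`: no point of the finite set `A` is in the convex hull of the other points.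
-/

set_option autoImplicit false

open Finset

namespace Pool.Agent.Results.MP_e17eac_co.ConvexUpToFewPoints

open Pool.Agent.W296.HL Pool.Agent.TH511.HLC

open scoped Classical in
/-- Let `P` be a finite set of points of the plane in general position and let `A_1, …, A_c` be
finite sets in convex position.
1. If `S ⊆ P` is covered by the sets `A_i`, then at most `4 c |P|` bisectors of `P` pass through a
   point of `S`.
2. If `m` is the number of points of `P` that are in none of the sets `A_i`, then `P` has at most
   `4 c |P| + 7 (m |P|) ^ (2 / 3)` bisectors. -/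
theorem result :
    (∀ P : Finset (ℝ × ℝ), GeneralPosition P → ∀ S ⊆ P,
      ∀ (c : ℕ) (A : Fin c → Finset (ℝ × ℝ)), (∀ i, ConvexPosition (A i)) →
      (∀ p ∈ S, ∃ i, p ∈ A i) →
      {L | IsBisector P L ∧ ∃ p ∈ S, p ∈ L}.ncard ≤ 4 * c * #P) ∧
    (∀ P : Finset (ℝ × ℝ), GeneralPosition P →
      ∀ (c : ℕ) (A : Fin c → Finset (ℝ × ℝ)), (∀ i, ConvexPosition (A i)) →
      ({L | IsBisector P L}.ncard : ℝ) ≤ 4 * c * #P +
        7 * ((#{p ∈ P | ∀ i, p ∉ A i} : ℝ) * #P) ^ (2 / 3 : ℝ)) :=
  ⟨fun _ hP _ hS _ A hA hc => Pool.Agent.Y429.HalvFew.touch (gen_of_gp hP) hS A hA hc,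
    fun _ hP _ A hA => Pool.Agent.Y429.HalvFew.main (gen_of_gp hP) A hA⟩

end Pool.Agent.Results.MP_e17eac_co.ConvexUpToFewPoints
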