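import Pool.Agent.Y344.KD.Bis
/-!
# Halving lines: every point set has a large subset with linearly many bisectors

Definitions (in `Pool/Agent/W296/HL3.lean`, namespace `Pool.Agent.W296.HL`):

* `Line a b c = {p | a * p.1 + b * p.2 = c}`,
* `GeneralPosition P`: no three distinct points of `P` on a common line,
* `IsBisector P L`: `L` is a line through two distinct points of `P` with exactly
  `|P| / 2 - 1` points of `P` on each open side.
-/

set_option autoImplicit false

open Finset

namespace Pool.Agent.Results.MP_e17eac_co.FewDeletions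

open Pool.Agent.W296.HL

/-- Let `P` be a finite set of points of the plane in general position.
1. For `1 ≤ t ≤ |P|` one can delete at most `t` points of `P` so that the set `P'` of the remaining
   points has an even number of elements and at most `180 |P| ^ (4 / 3) t ^ (- 1 / 3)` bisectors.
2. If `|P|` is even and `0 < δ ≤ 1`, then one can delete at most `δ |P|` points of `P` so that the
   set `P'` of the remaining points has an even number of elements and at most
   `180 δ ^ (- 1 / 3) |P|` bisectors. -/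
theorem result :
    (∀ P : Finset (ℝ × ℝ), GeneralPosition P → ∀ t : ℝ, 1 ≤ t → t ≤ #P →
      ∃ P' ⊆ P, Even #P' ∧ (#P : ℝ) - #P' ≤ t ∧
        ({L | IsBisector P' L}.ncard : ℝ) ≤ 180 * (#P : ℝ) ^ (4 / 3 : ℝ) * t ^ (-(1 / 3) : ℝ)) ∧
    (∀ P : Finset (ℝ × ℝ), GeneralPosition P → Even #P → ∀ δ : ℝ, 0 < δ → δ ≤ 1 →
      ∃ P' ⊆ P, Even #P' ∧ (1 - δ) * #P ≤ #P' ∧
        ({L | IsBisector P' L}.ncard : ℝ) ≤ 180 * δ ^ (-(1 / 3) : ℝ) * #P) := by
  classical
  constructor
  · intro P hP t h1 ht
    have hG := gen_of_gp hP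
    rcases Nat.even_or_odd #P with hE | hO
    · obtain ⟨P', hsub, hE', hc, hb⟩ := Y344.KD.few_t hG hE (by linarith : 0 ≤ t) ht
      refine ⟨P', hsub, hE', hc, hb.trans ?_⟩
      apply mul_le_mul_of_nonneg_left _ (by positivity)
      exact Real.rpow_le_rpow_of_nonpos (by linarith) (by linarith) (by norm_num)
    · obtain ⟨x, hx⟩ : P.Nonempty := by
        rw [← card_pos]
        exact hO.pos
      have hc0 : #(P.erase x) + 1 = #P := card_erase_add_one hx
      have hE : Even #(P.erase x) := by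
        obtain ⟨m, hm⟩ := hO
        exact ⟨m, by omega⟩
      have hG' : Gen (P.erase x) := fun p hp q hq y hy =>
        hG p (mem_of_mem_erase hp) q (mem_of_mem_erase hq) y (mem_of_mem_erase hy)
      have hcr : (#(P.erase x) : ℝ) + 1 = #P := by exact_mod_cast hc0
      obtain ⟨P', hsub, hE', hc, hb⟩ := Y344.KD.few_t hG' hE (by linarith : 0 ≤ t - 1)
        (by linarith)
      refine ⟨P', hsub.trans (erase_subset _ _), hE', by linarith, hb.trans ?_⟩
      rw [sub_add_cancel]
      have : (#(P.erase x) : ℝ) ^ (4 / 3 : ℝ) ≤ (#P : ℝ) ^ (4 / 3 : ℝ) :=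
        Real.rpow_le_rpow (Nat.cast_nonneg _) (by linarith) (by norm_num)
      gcongr
  · intro P hP hE δ h0 h1
    have hG := gen_of_gp hP
    have hn : (0 : ℝ) ≤ #P := Nat.cast_nonneg _
    obtain ⟨P', hsub, hE', hc, hb⟩ := Y344.KD.few_t hG hE (t := δ * #P) (by positivity)
      (by nlinarith)
    refine ⟨P', hsub, hE', by linarith, hb.trans ?_⟩
    rcases Nat.eq_zero_or_pos #P with h | h
    · rw [h]
      simp
    · have hn0 : (0 : ℝ) < #P := by exact_mod_cast h
      have e1 : (δ * #P + 1) ^ (-(1 / 3) : ℝ) ≤ (δ * #P) ^ (-(1 / 3) : ℝ) :=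
        Real.rpow_le_rpow_of_nonpos (by positivity) (by linarith) (by norm_num)
      have e2 : (#P : ℝ) ^ (4 / 3 : ℝ) * (δ * #P) ^ (-(1 / 3) : ℝ) = δ ^ (-(1 / 3) : ℝ) * #P := by
        rw [Real.mul_rpow h0.le hn, mul_left_comm, ← Real.rpow_add hn0]
        norm_num
      calc 180 * (#P : ℝ) ^ (4 / 3 : ℝ) * (δ * #P + 1) ^ (-(1 / 3) : ℝ) ≤
            180 * (#P : ℝ) ^ (4 / 3 : ℝ) * (δ * #P) ^ (-(1 / 3) : ℝ) := by gcongr
        _ = 180 * ((#P : ℝ) ^ (4 / 3 : ℝ) * (δ * #P) ^ (-(1 / 3) : ℝ)) := by ring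
        _ = _ := by rw [e2]; ring

end Pool.Agent.Results.MP_e17eac_co.FewDeletions
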