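import Pool.Agent.Y344.KD.RandBis
/-!
# Halving lines of random subsets of an arbitrary planar point set

Definitions (in `Pool/Agent/W296/HL3.lean`, namespace `Pool.Agent.W296.HL`):

* `Line a b c = {p | a * p.1 + b * p.2 = c}`,
* `GeneralPosition P`: no three distinct points of `P` on a common line,
* `IsBisector P L`: `L` is a line through two distinct points of `P` with exactly
  `|P| / 2 - 1` points of `P` on each open side.
-/

set_option autoImplicit false

open Finset

namespace Pool.Agent.Results.MP_e17eac_co.RandomSubsets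

open Pool.Agent.W296.HL

open scoped Classical in
/-- Let `P` be a finite set of points of the plane in general position.
1. Let `0 < r ≤ 1 / 2` and let every point of `P` be deleted independently with probability `r`.
   The expected number of bisectors of the set of the remaining points is at most
   `240 |P| ^ (7 / 6) r ^ (- 1 / 6)`. (The set `D` of the deleted points has probability
   `r ^ |D| (1 - r) ^ (|P| - |D|)`.)
2. The average number of bisectors of a subset of `P`, over all `2 ^ |P|` subsets, is at most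
   `270 |P| ^ (7 / 6)`.
3. For `lam > 0` at most `2 ^ |P| / lam` subsets of `P` have more than
   `270 lam |P| ^ (7 / 6)` bisectors. -/
theorem result (P : Finset (ℝ × ℝ)) (hP : GeneralPosition P) :
    (∀ r : ℝ, 0 < r → r ≤ 1 / 2 →
      ∑ D ∈ P.powerset, r ^ #D * (1 - r) ^ (#P - #D) * ({L | IsBisector (P \ D) L}.ncard : ℝ) ≤
        240 * (#P : ℝ) ^ (7 / 6 : ℝ) * r ^ (-(1 / 6) : ℝ)) ∧
    (∑ S ∈ P.powerset, ({L | IsBisector S L}.ncard : ℝ)) / 2 ^ #P ≤
      270 * (#P : ℝ) ^ (7 / 6 : ℝ) ∧
    (∀ lam : ℝ, 0 < lam →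
      (#{S ∈ P.powerset | 270 * lam * (#P : ℝ) ^ (7 / 6 : ℝ) < ({L | IsBisector S L}.ncard : ℝ)}
        : ℝ) ≤ 2 ^ #P / lam) := by
  have hG := gen_of_gp hP
  have h2 := Y344.KD.avg_bisectors hG
  refine ⟨fun r h0 h1 => Y344.KD.exp_bisectors hG h0 h1, ?_, ?_⟩
  · rw [div_le_iff₀ (by positivity)]
    linarith
  · intro lam hl
    set T := {S ∈ P.powerset | 270 * lam * (#P : ℝ) ^ (7 / 6 : ℝ) <
      ({L | IsBisector S L}.ncard : ℝ)} with hT
    rcases Nat.eq_zero_or_pos #P with h0 | h0
    · have hP0 : P = ∅ := card_eq_zero.mp h0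
      have hT0 : T = ∅ := by
        rw [hT, filter_eq_empty_iff]
        intro S hS
        rw [hP0, mem_powerset, subset_empty] at hS
        have : {L | IsBisector S L} = ∅ := by
          rw [Set.eq_empty_iff_forall_notMem]
          rintro L ⟨a, b, c, -, -, ⟨p, hp, -⟩, -⟩
          rw [hS] at hp
          exact notMem_empty _ hp
        rw [this, Set.ncard_empty, h0]
        norm_num
      rw [hT0, card_empty, Nat.cast_zero]
      positivity
    have hn : (0 : ℝ) < #P := by exact_mod_cast h0
    have h3 : (#T : ℝ) * (270 * lam * (#P : ℝ) ^ (7 / 6 : ℝ)) ≤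
        ∑ S ∈ P.powerset, ({L | IsBisector S L}.ncard : ℝ) := by
      calc (#T : ℝ) * (270 * lam * (#P : ℝ) ^ (7 / 6 : ℝ)) =
            ∑ _S ∈ T, 270 * lam * (#P : ℝ) ^ (7 / 6 : ℝ) := by rw [sum_const, nsmul_eq_mul]
        _ ≤ ∑ S ∈ T, ({L | IsBisector S L}.ncard : ℝ) := by
            apply sum_le_sum
            intro S hS
            exact (mem_filter.mp hS).2.le
        _ ≤ _ := sum_le_sum_of_subset_of_nonneg (filter_subset _ _)
            (fun _ _ _ => Nat.cast_nonneg _)
    have h4 : 0 < 270 * (#P : ℝ) ^ (7 / 6 : ℝ) := by positivity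
    rw [le_div_iff₀ hl]
    by_contra hcon
    push Not at hcon
    have h5 : 2 ^ #P * (270 * (#P : ℝ) ^ (7 / 6 : ℝ)) <
        #T * lam * (270 * (#P : ℝ) ^ (7 / 6 : ℝ)) := mul_lt_mul_of_pos_right hcon h4
    nlinarith [h3, h2, h5]

end Pool.Agent.Results.MP_e17eac_co.RandomSubsets
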